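import Pool.Agent.helper36.PT.Spec
import Pool.Agent.helper13.AA.S3

/-! # Project PT, row RPS: the square of Selberg's sum as a divisor sum -/

set_option autoImplicit false

namespace Pool.Agent.PT

open Finset Pool.Agent.helper71.AA

lemma RPS_pr_mono (D K : Finset ℕ) (h : D ⊆ K) (hK : ∀ l ∈ K, 1 ≤ l) : pr D ≤ pr K := by
  unfold pr
  rw [← prod_sdiff h]
  have h1 : (1 : ℝ) ≤ ∏ l ∈ K \ D, (l : ℝ) := by
    have : ∀ l ∈ K \ D, (1 : ℝ) ≤ (l : ℝ) := fun l hl => by
      exact_mod_cast hK l (mem_sdiff.1 hl).1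
    exact le_trans (le_of_eq (prod_const_one (s := K \ D)).symm)
      (prod_le_prod (fun _ _ => zero_le_one) this)
  have h2 : (0 : ℝ) ≤ ∏ l ∈ D, (l : ℝ) := prod_nonneg fun l _ => Nat.cast_nonneg l
  nlinarith

lemma RPS_pr_union (D E : Finset ℕ) (h : ∀ l ∈ D ∩ E, 1 ≤ l) : pr (D ∪ E) ≤ pr D * pr E := by
  have h1 : pr (D ∪ E) * pr (D ∩ E) = pr D * pr E := by
    unfold pr
    exact prod_union_inter
  have h2 : (1 : ℝ) ≤ pr (D ∩ E) := by
    have := RPS_pr_mono ∅ (D ∩ E) (empty_subset _) h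
    unfold pr at this ⊢
    rwa [prod_empty] at this
  have h3 : 0 ≤ pr (D ∪ E) := prod_nonneg fun l _ => Nat.cast_nonneg l
  rw [← h1]
  nlinarith

/-- the coefficients of Selberg's sum, with their support -/
lemma RPS_Sg (Q : Finset ℕ) (hQ : ∀ l ∈ Q, 3 ≤ l) (R : ℝ) :
    ∃ ξ : Finset ℕ → ℝ, Rep Q (Sg Q R) ξ ∧
      ∑ D ∈ Q.powerset, |ξ D| ≤ ∑ K ∈ Sub Q R, (2 : ℝ) ^ K.card ∧
      ∀ D, ξ D ≠ 0 → D ⊆ Q ∧ pr D ≤ R := by
  have hS : ∀ K ∈ Sub Q R, K ⊆ Q := fun K hK => mem_powerset.1 (mem_filter.1 hK).1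
  refine ⟨fun D => ∑ K ∈ Sub Q R, (if D ⊆ K then (∏ l ∈ D, (-(l : ℝ))) / ph K else 0), ?_, ?_, ?_⟩
  · intro A hA
    unfold Sg
    rw [sum_comm]
    refine sum_congr rfl fun K hK => ?_
    rw [S3_ch, S3_sum_powerset Q A hA, S3_sum_powerset Q K (hS K hK), sum_div]
    refine sum_congr rfl fun D _ => ?_
    by_cases h1 : D ⊆ A
    · by_cases h2 : D ⊆ K
      · simp only [if_pos h1, if_pos h2]
      · simp only [if_pos h1, if_neg h2, zero_div]
    · by_cases h2 : D ⊆ K
      · simp only [if_neg h1, if_pos h2, zero_div]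
      · simp only [if_neg h1, if_neg h2, zero_div]
  · calc ∑ D ∈ Q.powerset, |∑ K ∈ Sub Q R, (if D ⊆ K then (∏ l ∈ D, (-(l : ℝ))) / ph K else 0)|
        ≤ ∑ D ∈ Q.powerset, ∑ K ∈ Sub Q R, (if D ⊆ K then (∏ l ∈ D, (l : ℝ)) / ph K else 0) := by
          refine sum_le_sum fun D _ => ?_
          refine (abs_sum_le_sum_abs _ _).trans (sum_le_sum fun K hK => ?_)
          split_ifs
          · rw [abs_div, abs_of_pos (S3_ph_pos K (fun l hl => hQ l (hS K hK hl))), abs_prod]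
            refine le_of_eq ?_
            congr 1
            refine prod_congr rfl fun l _ => ?_
            rw [abs_neg, abs_of_nonneg (Nat.cast_nonneg l)]
          · rw [abs_zero]
      _ = ∑ K ∈ Sub Q R, ∑ D ∈ K.powerset, (∏ l ∈ D, (l : ℝ)) / ph K := by
          rw [sum_comm]
          refine sum_congr rfl fun K hK => ?_
          rw [S3_sum_powerset Q K (hS K hK)]
      _ = ∑ K ∈ Sub Q R, ∏ l ∈ K, ((1 + (l : ℝ)) / ((l : ℝ) - 1)) := by
          refine sum_congr rfl fun K _ => ?_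
          rw [← sum_div, ← prod_one_add, prod_div_distrib]
          rfl
      _ ≤ ∑ K ∈ Sub Q R, (2 : ℝ) ^ K.card := by
          refine sum_le_sum fun K hK => ?_
          rw [← prod_const]
          refine prod_le_prod (fun l hl => ?_) (fun l hl => ?_)
          · have : (3 : ℝ) ≤ l := by exact_mod_cast hQ l (hS K hK hl)
            apply div_nonneg <;> linarith
          · have : (3 : ℝ) ≤ l := by exact_mod_cast hQ l (hS K hK hl)
            rw [div_le_iff₀ (by linarith)]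
            linarith
  · intro D hD
    obtain ⟨K, hK, hne⟩ := exists_ne_zero_of_sum_ne_zero hD
    have hDK : D ⊆ K := by
      by_contra h
      exact hne (if_neg h)
    refine ⟨hDK.trans (hS K hK), le_trans (RPS_pr_mono D K hDK fun l hl => ?_)
      (mem_filter.1 hK).2⟩
    have := hQ l (hS K hK hl)
    omega

theorem RPS : RPS_stmt := by
  intro w Z hw Q hQ R hR
  have hP : ∀ l ∈ Q, l.Prime := fun l hl => (mem_filter.1 (hQ hl)).2
  have h3 : ∀ l ∈ Q, 3 ≤ l := by
    intro l hl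
    have := (mem_Ioc.1 (mem_filter.1 (hQ hl)).1).1
    omega
  obtain ⟨ξ, hξ, hm, hs⟩ := RPS_Sg Q h3 R
  have hm' : ∑ D ∈ Q.powerset, |ξ D| ≤ R * (1 + Real.log R) := hm.trans (S3_count Q hP R hR)
  have h0 : (0 : ℝ) ≤ ∑ D ∈ Q.powerset, |ξ D| := sum_nonneg fun _ _ => abs_nonneg _
  refine ⟨fun M => ∑ D ∈ Q.powerset, ∑ E ∈ Q.powerset,
    (if D ∪ E = M then ξ D * ξ E else 0), ?_, ?_, ?_⟩
  · intro A hA
    simp only
    rw [sq, hξ A hA, S3_sum_powerset Q A hA ξ, sum_mul_sum]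
    symm
    rw [sum_comm]
    refine sum_congr rfl fun D hD => ?_
    rw [sum_comm]
    refine sum_congr rfl fun E hE => ?_
    by_cases hU : D ∪ E ⊆ A
    · rw [if_pos (union_subset_iff.1 hU).1, if_pos (union_subset_iff.1 hU).2,
        sum_ite_eq, if_pos (mem_powerset.2 hU)]
    · have h4 : ∑ M ∈ A.powerset, (if D ∪ E = M then ξ D * ξ E else 0) = 0 := by
        rw [sum_ite_eq, if_neg (fun h4 => hU (mem_powerset.1 h4))]
      rw [h4]
      by_cases hD' : D ⊆ A
      · by_cases hE' : E ⊆ A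
        · exact absurd (union_subset hD' hE') hU
        · rw [if_neg hE', mul_zero]
      · rw [if_neg hD', zero_mul]
  · intro M
    calc |∑ D ∈ Q.powerset, ∑ E ∈ Q.powerset, (if D ∪ E = M then ξ D * ξ E else 0)|
        ≤ ∑ D ∈ Q.powerset, ∑ E ∈ Q.powerset, |ξ D| * |ξ E| := by
          refine (abs_sum_le_sum_abs _ _).trans (sum_le_sum fun D _ => ?_)
          refine (abs_sum_le_sum_abs _ _).trans (sum_le_sum fun E _ => ?_)
          split_ifs
          · rw [abs_mul]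
          · rw [abs_zero]
            exact mul_nonneg (abs_nonneg _) (abs_nonneg _)
      _ = (∑ D ∈ Q.powerset, |ξ D|) ^ 2 := by rw [sq, sum_mul_sum]
      _ ≤ (R * (1 + Real.log R)) ^ 2 := pow_le_pow_left₀ h0 hm' 2
  · intro M hM
    obtain ⟨D, hD, hDne⟩ := exists_ne_zero_of_sum_ne_zero hM
    obtain ⟨E, hE, hne⟩ := exists_ne_zero_of_sum_ne_zero hDne
    have hU : D ∪ E = M := by
      by_contra h
      exact hne (if_neg h)
    rw [if_pos hU] at hne
    have h5 := hs D (left_ne_zero_of_mul hne)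
    have h6 := hs E (right_ne_zero_of_mul hne)
    refine ⟨hU ▸ union_subset h5.1 h6.1, ?_⟩
    rw [← hU]
    refine (RPS_pr_union D E fun l hl => ?_).trans ?_
    · have := h3 l (h5.1 (mem_inter.1 hl).1)
      omega
    · rw [sq]
      exact mul_le_mul h5.2 h6.2 (prod_nonneg fun l _ => Nat.cast_nonneg l) (by linarith)

end Pool.Agent.PT
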